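import Pool.Agent.P.MP_e2f256_co.Map

namespace Pool.Agent.Results.MP_e2f256_co.LargeFaces

open Pool.Agent.P.MP_e2f256_co

theorem result {V : Type} [Finite V] (H : SimpleGraph V) (R : Rotation H) (hplane : R.Plane)
    (h3 : ThreeConnected H) (μ : H.edgeSet → ℕ) (Δ : ℕ) (hΔ : 1000000 ≤ Δ)
    (hface : ∀ f : R.Face, (R.boundary μ f).ncard ≤ Δ) :
    ∃ c : SubV H μ → Fin (3 * Δ / 2), ∀ f : R.Face, Set.InjOn c (R.boundary μ f) :=
  main R hplane h3 μ Δ hΔ hface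

end Pool.Agent.Results.MP_e2f256_co.LargeFaces
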